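import Pool.Agent.Run7.h41.NF.Ind5

/-!
# Finite outer actions on finitely presented quotients of a free group

Let `F` be the free group of rank `r ≥ 2`, let `H` be a subgroup of `Out(F)` and let `N` be a finitely
generated normal subgroup of finite index of `H`.  There is a normal subgroup `R` of `F` such that `F/R` is
finitely presented, `H` is the stabiliser of `R` in `Out(F)` and `N` is the group of the elements of
`Out(F)` which act trivially on `F/R` up to inner automorphisms.  So the congruence subgroup property for
`Out(F)` is a property of the finitely presented quotients of `F` with a finite outer action.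
-/

set_option autoImplicit false

open Pointwise

namespace Pool.Agent.Results.MP_181555_al.FinitelyPresentedQuotients

section

variable (G : Type) [Group G]

/-- The subgroup of inner automorphisms of `G`. -/
def Inn : Subgroup (MulAut G) := (MulAut.conj : G →* MulAut G).range

theorem conj_map (f : MulAut G) (y : G) : f * MulAut.conj y * f⁻¹ = MulAut.conj (f y) := by
  ext z
  simp [MulAut.mul_apply, MulAut.conj_apply]

instance normal_Inn : (Inn G).Normal := by
  refine ⟨?_⟩
  rintro _ ⟨y, rfl⟩ f
  exact ⟨f y, (conj_map G f y).symm⟩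

/-- The outer automorphism group `Aut(G)/Inn(G)`. -/
abbrev Out : Type := MulAut G ⧸ Inn G

end

variable {G : Type} [Group G]

/-- The automorphism `f` acts on `G/R` as an inner automorphism. -/
def InnerMod (R : Subgroup G) (f : MulAut G) : Prop :=
  ∃ g : G, ∀ x : G, f x * (g * x * g⁻¹)⁻¹ ∈ R

/-- The stabiliser of `R` in `Out(G)`: the classes of the automorphisms `f` with `f(R) = R`. -/
def Stab (R : Subgroup G) : Subgroup (Out G) :=
  (MulAction.stabilizer (MulAut G) R).map (QuotientGroup.mk' (Inn G))

/-- `N` contains the kernel of `Out(G) → Out(G/K)` for some characteristic subgroup `K` of finite index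
of `G`. -/
def IsCongruence (N : Subgroup (Out G)) : Prop :=
  ∃ K : Subgroup G, K.Characteristic ∧ K.FiniteIndex ∧
    ∀ f : MulAut G, InnerMod K f → (f : Out G) ∈ N

/-- The normal subgroup `R` realises the section `H/N` of `Out(G)`: the stabiliser of `R` in `Out(G)` is
`H`, and `N` is the group of the elements acting trivially on `G/R` (up to inner automorphisms). -/
def Realises (R : Subgroup G) (H N : Subgroup (Out G)) : Prop :=
  Stab R = H ∧ ∀ f : MulAut G, InnerMod R f ↔ (f : Out G) ∈ N

theorem smul_mem_iff (f : MulAut G) (Γ : Subgroup G) : f • Γ = Γ ↔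
    (∀ z ∈ Γ, f z ∈ Γ) ∧ ∀ z ∈ Γ, f⁻¹ z ∈ Γ := by
  constructor
  · intro h
    constructor
    · intro z hz
      have h1 : f • z ∈ f • Γ := Subgroup.smul_mem_pointwise_smul z f Γ hz
      rw [h] at h1
      exact h1
    · intro z hz
      rw [← h] at hz
      exact Subgroup.mem_pointwise_smul_iff_inv_smul_mem.mp hz
  · rintro ⟨h1, h2⟩
    ext z
    rw [Subgroup.mem_pointwise_smul_iff_inv_smul_mem]
    constructor
    · intro hz
      have h3 := h1 _ hz
      change f (f⁻¹ z) ∈ Γ at h3
      rwa [MulAut.apply_inv_self] at h3
    · intro hz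
      exact h2 z hz

theorem conj_smul (Γ : Subgroup G) (hΓ : Γ.Normal) (y : G) : (MulAut.conj y : MulAut G) • Γ = Γ := by
  rw [smul_mem_iff]
  constructor
  · intro z hz
    exact hΓ.conj_mem z hz y
  · intro z hz
    rw [← map_inv]
    exact hΓ.conj_mem z hz y⁻¹

theorem mem_Stab (Γ : Subgroup G) (hΓ : Γ.Normal) (f : MulAut G) :
    (f : Out G) ∈ Stab Γ ↔ f • Γ = Γ := by
  constructor
  · rintro ⟨f', hf', h⟩
    have h1 : ((f' : MulAut G) : Out G) = (f : Out G) := h
    rw [QuotientGroup.eq] at h1
    obtain ⟨y, hy⟩ := h1
    have e : f = f' * MulAut.conj y := by rw [hy]; group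
    have h2 : f' • Γ = Γ := hf'
    rw [e, mul_smul, conj_smul Γ hΓ, h2]
  · intro h
    exact ⟨f, h, rfl⟩

theorem main (r : ℕ) (hr : 2 ≤ r) (N H : Subgroup (Out (FreeGroup (Fin r)))) (hNH : N ≤ H)
    (hn : (N.subgroupOf H).Normal) (hfg : N.FG) (hfi : (N.subgroupOf H).FiniteIndex) :
    ∃ (R : Subgroup (FreeGroup (Fin r))) (_ : R.Normal),
      Group.IsFinitelyPresented (FreeGroup (Fin r) ⧸ R) ∧ Realises R H N := by
  obtain ⟨w, -, h1⟩ := Run7.h41.IND.main_ind (Run7.h41.IND.ind_free r hr)
  set q : MulAut (FreeGroup (Fin r)) →* Out (FreeGroup (Fin r)) :=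
    QuotientGroup.mk' (Inn (FreeGroup (Fin r))) with hq
  have hqs : Function.Surjective q := QuotientGroup.mk'_surjective _
  have hker : ∀ y : FreeGroup (Fin r), q (MulAut.conj y) = 1 := fun y =>
    (QuotientGroup.eq_one_iff _).mpr ⟨y, rfl⟩
  obtain ⟨Γ, k1, k2, k3, k4, k5, k6⟩ := h1 (N.comap q) (H.comap q)
    (fun y => by rw [Subgroup.mem_comap, hker]; exact N.one_mem)
    (Subgroup.comap_mono hNH)
    (fun f hf n hn' => by
      rw [Subgroup.mem_comap] at hf hn' ⊢
      rw [map_mul, map_mul, map_inv]
      exact hn.conj_mem ⟨q n, hNH hn'⟩ hn' ⟨q f, hf⟩)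
  -- finiteness
  have hNfg : (N.comap q).FG := by
    obtain ⟨S, hS⟩ := hfg
    choose s hs using hqs
    have hI : ((MulAut.conj : FreeGroup (Fin r) →* MulAut (FreeGroup (Fin r))).range).FG := by
      exact (Group.fg_iff_subgroup_fg _).mp inferInstance
    obtain ⟨S', hS'⟩ := hI
    classical
    refine ⟨S' ∪ S.image s, ?_⟩
    apply le_antisymm
    · rw [Subgroup.closure_le]
      intro x hx
      rw [Finset.coe_union] at hx
      rcases hx with hx | hx
      · have h3 : x ∈ (MulAut.conj : FreeGroup (Fin r) →* MulAut (FreeGroup (Fin r))).range := by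
          rw [← hS']; exact Subgroup.subset_closure hx
        obtain ⟨y, rfl⟩ := h3
        change q (MulAut.conj y) ∈ N
        rw [hker]; exact N.one_mem
      · rw [Finset.coe_image] at hx
        obtain ⟨z, hz, rfl⟩ := hx
        change q (s z) ∈ N
        rw [hs, ← hS]
        exact Subgroup.subset_closure hz
    · intro x hx
      have hx' : q x ∈ Subgroup.closure (S : Set (Out (FreeGroup (Fin r)))) := by
        rw [hS]; exact hx
      have h3 : (Subgroup.closure ((S' ∪ S.image s : Finset _) : Set (MulAut (FreeGroup (Fin r))))).map q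
          = Subgroup.closure (S : Set (Out (FreeGroup (Fin r)))) := by
        rw [MonoidHom.map_closure]
        apply le_antisymm
        · rw [Subgroup.closure_le]
          rintro _ ⟨z, hz, rfl⟩
          rw [Finset.coe_union] at hz
          rcases hz with hz | hz
          · have h3 : z ∈ (MulAut.conj : FreeGroup (Fin r) →* MulAut (FreeGroup (Fin r))).range := by
              rw [← hS']; exact Subgroup.subset_closure hz
            obtain ⟨y, rfl⟩ := h3
            rw [hker]; exact Subgroup.one_mem _
          · rw [Finset.coe_image] at hz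
            obtain ⟨u, hu, rfl⟩ := hz
            rw [hs]
            exact Subgroup.subset_closure hu
        · apply Subgroup.closure_mono
          intro u hu
          refine ⟨s u, ?_, hs u⟩
          rw [Finset.coe_union, Finset.coe_image]
          exact Or.inr ⟨u, hu, rfl⟩
      rw [← h3] at hx'
      obtain ⟨y, hy, hxy⟩ := hx'
      have h4 : (y : Out (FreeGroup (Fin r))) = (x : Out (FreeGroup (Fin r))) := hxy
      rw [QuotientGroup.eq] at h4
      have h5 : y⁻¹ * x ∈ Subgroup.closure
          ((S' ∪ S.image s : Finset _) : Set (MulAut (FreeGroup (Fin r)))) := by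
        have h6 : y⁻¹ * x ∈ (MulAut.conj : FreeGroup (Fin r) →* MulAut (FreeGroup (Fin r))).range := h4
        rw [← hS'] at h6
        refine Subgroup.closure_mono ?_ h6
        rw [Finset.coe_union]
        exact Set.subset_union_left
      have e : x = y * (y⁻¹ * x) := by group
      rw [e]
      exact Subgroup.mul_mem _ hy h5
  have hNfi : ((N.comap q).subgroupOf (H.comap q)).FiniteIndex := by
    exact ⟨Subgroup.relIndex_comap_ne_zero q hfi.index_ne_zero⟩
  obtain ⟨E, m1, m2, m3, m4, m5⟩ := Run7.h41.IND.finite_relators
    (Run7.h41.IND.free_gens r).1 (Run7.h41.IND.free_gens r).2 (N.comap q) (H.comap q)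
    (fun y => by rw [Subgroup.mem_comap, hker]; exact N.one_mem)
    (Subgroup.comap_mono hNH) hNfg hNfi Γ k1 k3 k5 w k2
  have hle : Subgroup.normalClosure E ≤ Γ := Subgroup.normalClosure_le_normal m3
  refine ⟨Subgroup.normalClosure E, inferInstance,
    Group.IsFinitelyPresented.quotient _ ⟨E, m1, rfl⟩, ?_, ?_⟩
  · ext x
    induction x using QuotientGroup.induction_on with
    | H f =>
      rw [mem_Stab (Subgroup.normalClosure E) Subgroup.normalClosure_normal, smul_mem_iff]
      constructor
      · rintro ⟨h2, -⟩
        exact k4 f (hle (h2 w (Subgroup.subset_normalClosure m2)))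
      · intro h
        exact ⟨m4 f h, m4 f⁻¹ ((H.comap q).inv_mem h)⟩
  · intro f
    constructor
    · intro h
      exact k6 f (Run7.h41.IND.InnerMod.mono hle h)
    · intro h
      exact m5 f h

theorem characteristic_of (R : Subgroup G) (hR : R.Normal) (h : Stab R = ⊤) : R.Characteristic := by
  have h1 : ∀ f : MulAut G, f • R = R := fun f => by
    rw [← mem_Stab R hR f, h]; exact Subgroup.mem_top _
  refine ⟨fun f => ?_⟩
  ext y
  have h2 := h1 (f : MulAut G)
  rw [smul_mem_iff] at h2
  constructor
  · intro hy
    have h3 := h2.2 _ hy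
    have e : ((f : MulAut G)⁻¹) (f.toMonoidHom y) = y := f.symm_apply_apply y
    rwa [e] at h3
  · intro hy
    exact h2.1 y hy

/-- **Finitely presented quotients.**  Let `F` be the free group of rank `r ≥ 2`.

(1) Let `H` be a subgroup of `Out(F)` and let `N` be a finitely generated normal subgroup of finite index
of `H`.  There is a normal subgroup `R` of `F` with `F/R` finitely presented such that the stabiliser
of `R` in `Out(F)` is `H` and the elements of `Out(F)` acting trivially on `F/R` are those of `N`; so the
group of outer automorphisms of `F/R` induced by automorphisms of `F` is `H/N`.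

(2) Every normal subgroup `N` of finite index of `Out(F)` is the kernel of `Out(F) → Out(F/R)` for some
characteristic subgroup `R` of `F` with `F/R` finitely presented.

(3) The congruence subgroup property (Q1 for the rank `r`) holds if and only if for every
characteristic subgroup `R` of `F` such that `F/R` is finitely presented and the group `N` of the
elements of `Out(F)` acting trivially on `F/R` has finite index, `N` is a congruence subgroup.

(4) The congruence subgroup property holds if and only if for every normal subgroup `R` of `F` such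
that `F/R` is finitely presented and the stabiliser of `R` in `Out(F)` has finite index, this
stabiliser is a congruence subgroup. -/
theorem result (r : ℕ) (hr : 2 ≤ r) :
    (∀ N H : Subgroup (Out (FreeGroup (Fin r))), N ≤ H → (N.subgroupOf H).Normal → N.FG →
      (N.subgroupOf H).FiniteIndex → ∃ (R : Subgroup (FreeGroup (Fin r))) (_ : R.Normal),
        Group.IsFinitelyPresented (FreeGroup (Fin r) ⧸ R) ∧ Realises R H N) ∧
    (∀ N : Subgroup (Out (FreeGroup (Fin r))), N.Normal → N.FiniteIndex →
      ∃ (R : Subgroup (FreeGroup (Fin r))) (_ : R.Characteristic),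
        Group.IsFinitelyPresented (FreeGroup (Fin r) ⧸ R) ∧
        ∀ f : MulAut (FreeGroup (Fin r)), InnerMod R f ↔ (f : Out (FreeGroup (Fin r))) ∈ N) ∧
    ((∀ N : Subgroup (Out (FreeGroup (Fin r))), N.Normal → N.FiniteIndex → IsCongruence N) ↔
      ∀ (R : Subgroup (FreeGroup (Fin r))) (_ : R.Characteristic),
        Group.IsFinitelyPresented (FreeGroup (Fin r) ⧸ R) →
        ∀ N : Subgroup (Out (FreeGroup (Fin r))), N.FiniteIndex →
          (∀ f : MulAut (FreeGroup (Fin r)), InnerMod R f ↔ (f : Out (FreeGroup (Fin r))) ∈ N) →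
          IsCongruence N) ∧
    ((∀ N : Subgroup (Out (FreeGroup (Fin r))), N.Normal → N.FiniteIndex → IsCongruence N) ↔
      ∀ (R : Subgroup (FreeGroup (Fin r))) (_ : R.Normal),
        Group.IsFinitelyPresented (FreeGroup (Fin r) ⧸ R) → (Stab R).FiniteIndex →
          IsCongruence (Stab R)) := by
  have hfg : Group.FG (Out (FreeGroup (Fin r))) := by
    have h1 := Run7.h41.IND.aut_free_fg r
    infer_instance
  have hfin : ∀ N : Subgroup (Out (FreeGroup (Fin r))), N.FiniteIndex → N.FG := by
    intro N hN
    exact (Group.fg_iff_subgroup_fg N).mp inferInstance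
  have hcore : ∀ N : Subgroup (Out (FreeGroup (Fin r))), N.FiniteIndex →
      (∀ N : Subgroup (Out (FreeGroup (Fin r))), N.Normal → N.FiniteIndex → IsCongruence N) →
      IsCongruence N := by
    intro N hN h
    obtain ⟨K, hK1, hK2, hK3⟩ := h N.normalCore inferInstance inferInstance
    exact ⟨K, hK1, hK2, fun f hf => Subgroup.normalCore_le _ (hK3 f hf)⟩
  have p2 : ∀ N : Subgroup (Out (FreeGroup (Fin r))), N.Normal → N.FiniteIndex →
      ∃ (R : Subgroup (FreeGroup (Fin r))) (_ : R.Characteristic),
        Group.IsFinitelyPresented (FreeGroup (Fin r) ⧸ R) ∧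
        ∀ f : MulAut (FreeGroup (Fin r)), InnerMod R f ↔ (f : Out (FreeGroup (Fin r))) ∈ N := by
    intro N hN hNf
    obtain ⟨R, hR, h1, h2, h3⟩ := main r hr N ⊤ le_top inferInstance (hfin N hNf) inferInstance
    exact ⟨R, characteristic_of R hR h2, h1, h3⟩
  refine ⟨main r hr, p2, ⟨?_, ?_⟩, ⟨?_, ?_⟩⟩
  · intro h R _ _ N hN _
    exact hcore N hN h
  · intro h N hN hNf
    obtain ⟨R, hR, h1, h2⟩ := p2 N hN hNf
    exact h R hR h1 N hNf h2
  · intro h R _ _ hS
    exact hcore _ hS h
  · intro h N hN hNf
    obtain ⟨R, hR, h1, h2, h3⟩ := main r hr N N le_rfl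
      (by rw [Subgroup.subgroupOf_self]; infer_instance) (hfin N hNf)
      (by rw [Subgroup.subgroupOf_self]; infer_instance)
    rw [← h2]
    exact h R hR h1 (by rw [h2]; exact hNf)

end Pool.Agent.Results.MP_181555_al.FinitelyPresentedQuotients
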