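import Pool.Agent.Run7.h41.NF.All

/-!
# Normal subgroups of the outer automorphism group of a free group are kernels

For `r ≥ 2` let `F` be the free group of rank `r`.  Every normal subgroup of `Out(F)` is the kernel
of `Out(F) → Out(F/Γ)` for some characteristic subgroup `Γ` of `F` (of any index).  More generally,
this holds for the normal subgroups of all subgroups of `Out(F)`.  Consequently the congruence
subgroup property for `Out(F)` is a property of these kernels.
-/

set_option autoImplicit false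

namespace Pool.Agent.Results.MP_181555_al.NormalSubgroupsAreKernels

section

variable (G : Type) [Group G]

/-- The subgroup of inner automorphisms of `G`. -/
def Inn : Subgroup (MulAut G) := (MulAut.conj : G →* MulAut G).range

theorem conj_map (f : MulAut G) (y : G) : f * MulAut.conj y * f⁻¹ = MulAut.conj (f y) := by
  ext z
  simp [MulAut.mul_apply, MulAut.conj_apply]

instance normal_Inn : (Inn G).Normal := by
  refine ⟨?_⟩
  rintro _ ⟨y, rfl⟩ f
  exact ⟨f y, (conj_map G f y).symm⟩

/-- The outer automorphism group `Aut(G)/Inn(G)`. -/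
abbrev Out : Type := MulAut G ⧸ Inn G

end

section

variable {G : Type} [Group G] (Γ : Subgroup G) [hΓ : Γ.Characteristic]

/-- The homomorphism `Aut(G) → Aut(G/Γ)` for a characteristic subgroup `Γ`: an automorphism `f`
goes to the automorphism `x Γ ↦ f(x) Γ`. -/
def autQuot : MulAut G →* MulAut (G ⧸ Γ) where
  toFun f := QuotientGroup.congr Γ Γ f (Subgroup.characteristic_iff_map_eq.mp hΓ f)
  map_one' := by
    ext x
    induction x using QuotientGroup.induction_on with
    | H x => rfl
  map_mul' f f' := by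
    ext x
    induction x using QuotientGroup.induction_on with
    | H x => rfl

theorem autQuot_conj (y : G) : autQuot Γ (MulAut.conj y) = MulAut.conj (y : G ⧸ Γ) := by
  ext x
  induction x using QuotientGroup.induction_on with
  | H x => rfl

theorem autQuot_inn : Inn G ≤ (Inn (G ⧸ Γ)).comap (autQuot Γ) := by
  rintro _ ⟨y, rfl⟩
  exact ⟨(y : G ⧸ Γ), (autQuot_conj Γ y).symm⟩

/-- The natural homomorphism `Out(G) → Out(G/Γ)` for a characteristic subgroup `Γ`. -/
def outQuot : Out G →* Out (G ⧸ Γ) :=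
  QuotientGroup.map (Inn G) (Inn (G ⧸ Γ)) (autQuot Γ) (autQuot_inn Γ)

end

/-- The automorphism `f` acts on `G/Γ` as an inner automorphism. -/
def InnerMod {G : Type} [Group G] (Γ : Subgroup G) (f : MulAut G) : Prop :=
  ∃ g : G, ∀ x : G, f x * (g * x * g⁻¹)⁻¹ ∈ Γ

theorem mem_ker_iff {G : Type} [Group G] (Γ : Subgroup G) [Γ.Characteristic] (f : MulAut G) :
    ((f : Out G) ∈ (outQuot Γ).ker) ↔ InnerMod Γ f := by
  have hn : Γ.Normal := inferInstance
  rw [MonoidHom.mem_ker]
  have h : outQuot Γ (f : Out G) = ((autQuot Γ f : MulAut (G ⧸ Γ)) : Out (G ⧸ Γ)) := rfl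
  rw [h, QuotientGroup.eq_one_iff]
  constructor
  · rintro ⟨y, hy⟩
    induction y using QuotientGroup.induction_on with
    | H y =>
      refine ⟨y, fun x => ?_⟩
      have h1 : autQuot Γ f (x : G ⧸ Γ) = (y * x * y⁻¹ : G) := by rw [← hy]; rfl
      have h2 : ((f x : G) : G ⧸ Γ) = (y * x * y⁻¹ : G) := h1
      rw [QuotientGroup.eq] at h2
      have h3 := hn.conj_mem _ h2 (f x)
      have e : f x * ((f x)⁻¹ * (y * x * y⁻¹)) * (f x)⁻¹ = (f x * (y * x * y⁻¹)⁻¹)⁻¹ := by group
      rw [e] at h3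
      exact (Subgroup.inv_mem_iff _).mp h3
  · rintro ⟨y, hy⟩
    refine ⟨(y : G ⧸ Γ), ?_⟩
    ext x
    induction x using QuotientGroup.induction_on with
    | H x =>
      change ((y * x * y⁻¹ : G) : G ⧸ Γ) = (f x : G)
      rw [QuotientGroup.eq]
      have h3 := hn.conj_mem _ (hy x) (y * x * y⁻¹)⁻¹
      have e : (y * x * y⁻¹)⁻¹ * (f x * (y * x * y⁻¹)⁻¹) * (y * x * y⁻¹)⁻¹⁻¹ =
          (y * x * y⁻¹)⁻¹ * f x := by group
      rw [e] at h3
      exact h3

/-- The relative theorem. -/
theorem relative (r : ℕ) (hr : 2 ≤ r) (A N : Subgroup (MulAut (FreeGroup (Fin r))))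
    (hI : Inn (FreeGroup (Fin r)) ≤ N) (hNA : N ≤ A) (hN : ∀ f ∈ A, ∀ h ∈ N, f * h * f⁻¹ ∈ N) :
    ∃ Γ : Subgroup (FreeGroup (Fin r)), Γ.Normal ∧ (∀ f ∈ A, ∀ z ∈ Γ, f z ∈ Γ) ∧
      ∀ f ∈ A, f ∈ N ↔ InnerMod Γ f := by
  obtain ⟨n, rfl⟩ : ∃ n, r = n + 2 := ⟨r - 2, by omega⟩
  have h1 : (N.subgroupOf A).Normal := by
    refine ⟨?_⟩
    rintro ⟨h, _⟩ hh ⟨f, hf⟩
    exact hN f hf h hh
  obtain ⟨Γ, h2, h3, h4⟩ := Run7.h41.NF.main n A (hI.trans hNA) (N.subgroupOf A) h1
    (fun p hp => hI hp)
  exact ⟨Γ, h2, h3, fun f hf => h4 ⟨f, hf⟩⟩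

/-- **Normal subgroups of the outer automorphism group of a free group.**  Let `F` be the free group
of rank `r ≥ 2`.

(1) Let `A/Inn(F)` be any subgroup of `Out(F)` and let `N/Inn(F)` be a normal subgroup of `A/Inn(F)`.
There is a normal subgroup `Γ` of `F`, invariant under `A`, such that `N` is the set of all the elements
of `A` which act on `F/Γ` as inner automorphisms.

(2) Every normal subgroup of `Out(F)` is the kernel of `Out(F) → Out(F/Γ)` for some characteristic
subgroup `Γ` of `F`.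

(3) The congruence subgroup property (Q1 for the rank `r`) holds if and only if for all
characteristic subgroups `Γ` of `F` such that the kernel of `Out(F) → Out(F/Γ)` has finite
index there is a characteristic subgroup `K` of finite index of `F` such that this kernel contains the
kernel of `Out(F) → Out(F/K)`. -/
theorem result (r : ℕ) (hr : 2 ≤ r) :
    (∀ A N : Subgroup (MulAut (FreeGroup (Fin r))), Inn (FreeGroup (Fin r)) ≤ N → N ≤ A →
      (∀ f ∈ A, ∀ h ∈ N, f * h * f⁻¹ ∈ N) →
      ∃ Γ : Subgroup (FreeGroup (Fin r)), Γ.Normal ∧ (∀ f ∈ A, ∀ z ∈ Γ, f z ∈ Γ) ∧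
        ∀ f ∈ A, f ∈ N ↔ InnerMod Γ f) ∧
    (∀ N : Subgroup (Out (FreeGroup (Fin r))), N.Normal →
      ∃ (Γ : Subgroup (FreeGroup (Fin r))) (_ : Γ.Characteristic), N = (outQuot Γ).ker) ∧
    ((∀ N : Subgroup (Out (FreeGroup (Fin r))), N.Normal → N.FiniteIndex →
        ∃ (K : Subgroup (FreeGroup (Fin r))) (_ : K.Characteristic), K.FiniteIndex ∧
          (outQuot K).ker ≤ N) ↔
      ∀ (Γ : Subgroup (FreeGroup (Fin r))) (_ : Γ.Characteristic),
        (outQuot Γ).ker.FiniteIndex →
        ∃ (K : Subgroup (FreeGroup (Fin r))) (_ : K.Characteristic), K.FiniteIndex ∧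
          (outQuot K).ker ≤ (outQuot Γ).ker) := by
  have h2 : ∀ N : Subgroup (Out (FreeGroup (Fin r))), N.Normal →
      ∃ (Γ : Subgroup (FreeGroup (Fin r))) (_ : Γ.Characteristic), N = (outQuot Γ).ker := by
    intro N hN
    have hle : Inn (FreeGroup (Fin r)) ≤
        N.comap (QuotientGroup.mk' (Inn (FreeGroup (Fin r)))) := by
      intro f hf
      have h1 : (QuotientGroup.mk' (Inn (FreeGroup (Fin r)))) f = 1 :=
        (QuotientGroup.eq_one_iff _).mpr hf
      rw [Subgroup.mem_comap, h1]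
      exact N.one_mem
    have hNn : (N.comap (QuotientGroup.mk' (Inn (FreeGroup (Fin r))))).Normal := hN.comap _
    obtain ⟨Γ, -, h3, h4⟩ := relative r hr ⊤ _ hle le_top (fun f _ h hh => hNn.conj_mem h hh f)
    have hch : Γ.Characteristic := by
      refine ⟨fun f => ?_⟩
      ext y
      constructor
      · intro hy
        have h5 := h3 ((f : MulAut (FreeGroup (Fin r)))⁻¹) (Subgroup.mem_top _) _ hy
        have e : ((f : MulAut (FreeGroup (Fin r)))⁻¹) (f.toMonoidHom y) = y :=
          f.symm_apply_apply y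
        rw [e] at h5
        exact h5
      · intro hy
        exact h3 f (Subgroup.mem_top _) y hy
    refine ⟨Γ, hch, ?_⟩
    ext q
    induction q using QuotientGroup.induction_on with
    | H f =>
      rw [mem_ker_iff, ← h4 f (Subgroup.mem_top _)]
      rfl
  refine ⟨relative r hr, h2, fun h Γ hΓ hf => ?_, fun h N hN hf => ?_⟩
  · exact h _ (MonoidHom.normal_ker _) hf
  · obtain ⟨Γ, hΓ, rfl⟩ := h2 N hN
    exact h Γ hΓ hf

end Pool.Agent.Results.MP_181555_al.NormalSubgroupsAreKernels
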