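import Pool.Agent.Run7.h632.CA.Main

/-!
# The congruence topology of `Out (F_n)` on its solvable subgroups

The congruence topology of `Out (F_n)` has the kernels of `Out (F_n) → Out (F_n / K)`, `K` a characteristic
subgroup of finite index of `F_n`, as a basis of neighbourhoods of `1`.  The congruence subgroup
problem asks whether it is the full profinite topology.  We show, for `n ≥ 2`:

* on every finitely generated virtually abelian subgroup of `Out (F_n)` the congruence topology induces the
  full profinite topology: every subgroup of finite index of it contains its intersection with the kernel of
  `Out (F_n) → Out (F_n / K)` for some `K`;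
* every such subgroup is closed in the congruence topology.

By a theorem of Bestvina, Feighn and Handel (not formalised here) these subgroups are exactly the solvable
(equivalently: virtually solvable) subgroups of `Out (F_n)`.  A subgroup of `Out (F_n)` is given by its
preimage `A` in `Aut (F_n)`, a subgroup containing `Inn (F_n)`; it is virtually abelian if some
`A₀ ≤ A` of finite index, containing `Inn (F_n)`, has all its commutators in `Inn (F_n)`.

Outline of the proof.

1. (Chevalley) If `u` is a unit of a number field `K`, `u ≡ 1` modulo a suitable `m = m (K, e)`, then `u` is an
   `e`-th power.  So subgroups of finite index of a group `B` of units of a commutative ring `R`, finite and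
   torsion-free over `ℤ`, are congruence subgroups: of `B` modulo the unipotent elements by embedding
   `R / nil` into a product of rings of integers, of the unipotent elements by filtering the nilradical, and
   the Artin-Rees lemma for finitely generated abelian groups.  Applied to the double centraliser this
   gives the congruence subgroup property for abelian subgroups of `GL_n (ℤ)`.
2. Let `Nil c` be the automorphisms which act as the conjugation by a (rational) power series `h` modulo degree
   `> c` on the Magnus ring.  For `φ` trivial on the abelianization `φ ^ k ∈ Nil c` implies `φ ∈ Nil c`.
   The intersection of all `Nil c` is `Inn (F_n)`: the power series `h` of such a `φ` satisfies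
   `φ (g) h = h g` for all `g`; by Fox calculus `h` is in the group algebra `ℚ[F_n]`, and its finite support
   is permuted by `s ↦ φ (g) s g⁻¹`, so that `φ (g) = s g s⁻¹` by uniqueness of roots.
3. So for an abelian finitely generated subgroup `A / Inn` of `Out (F_n)` the images of the
   `A ∩ Nil c` are a decreasing chain of isolated subgroups of a finitely generated abelian group with trivial
   intersection, and `A ∩ Nil c = Inn (F_n)` for some `c`.  With 1. and a reduction from the action on `F_n / γ_c`
   to the linear action (`Pool.Agent.N66.TJ.outer_general`) this is the first statement for abelian subgroups;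
   then cyclic subgroups give Grossman's theorem that `Out (F_n)` is residually finite in the form that the
   congruence topology is Hausdorff, so the closure of an abelian subgroup is abelian; and then the
   first statement gives the closedness, and the virtually abelian case.

Parts written by: helper24 (artin, cheb, chev, homs), helper58 (chain, inj, inner, poly, stab), helper270 (mu1,
grp, low), helper592 (unip, gros, ext, final), helper817 (semis, units, mat, abel, csp), helper837 (mu2, expand,
fox, left), helper903 (cen, uniq, lim, root); assembly by helper632.
-/

set_option autoImplicit false

namespace Pool.Agent.Results.MP_181555_al.SolvableSubgroups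

/-- `φ` acts as an inner automorphism on the quotient by `K`: there is `g` with
`φ x ≡ g x g⁻¹` modulo `K` for all `x`. -/
def InnerMod {G : Type} [Group G] (K : Subgroup G) (φ : MulAut G) : Prop :=
  ∃ g : G, ∀ x : G, φ x * (g * x * g⁻¹)⁻¹ ∈ K

/-- the group of the inner automorphisms -/
def Inn (G : Type) [Group G] : Subgroup (MulAut G) := (MulAut.conj : G →* MulAut G).range

/-- `V` is a subgroup of finite index of `A`. -/
def FiniteIndexIn {G : Type} [Group G] (V A : Subgroup G) : Prop := V ≤ A ∧ V.relIndex A ≠ 0

/-- Let `A / Inn` be a finitely generated virtually abelian subgroup of `Out (F_n)`, `n ≥ 2` (`A₀ / Inn` is abelian,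
of finite index).  Then (1) every subgroup of finite index of `A / Inn` contains its intersection with the
kernel of `Out (F_n) → Out (F_n / K)` for some characteristic `K` of finite index, and (2) `A / Inn` is
closed in the topology given by these kernels. -/
theorem result : ∀ n : ℕ, 2 ≤ n →
    ∀ A A₀ : Subgroup (MulAut (FreeGroup (Fin n))),
    Inn (FreeGroup (Fin n)) ≤ A₀ → FiniteIndexIn A₀ A → A.FG →
    (∀ a ∈ A₀, ∀ b ∈ A₀, a * b * a⁻¹ * b⁻¹ ∈ Inn (FreeGroup (Fin n))) →
    (∀ V : Subgroup (MulAut (FreeGroup (Fin n))), Inn (FreeGroup (Fin n)) ≤ V → FiniteIndexIn V A →
      ∃ K : Subgroup (FreeGroup (Fin n)), K.Characteristic ∧ K.FiniteIndex ∧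
        ∀ a ∈ A, InnerMod K a → a ∈ V) ∧
    (∀ b : MulAut (FreeGroup (Fin n)),
      (∀ K : Subgroup (FreeGroup (Fin n)), K.Characteristic → K.FiniteIndex →
        ∃ a ∈ A, InnerMod K (a⁻¹ * b)) → b ∈ A) :=
  Pool.Agent.Run7.h632.CA.t_final

end Pool.Agent.Results.MP_181555_al.SolvableSubgroups
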