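import Pool.Agent.Run7.h41.NF.Ind5

/-!
# Every subgroup of the outer automorphism group of a free group is a stabiliser

Let `F` be the free group of rank `r ≥ 2`.  There is an element `w` of `F` whose orbit under `Out(F)` is
independent: for all subsets `X` of `Out(F)`, the image of `w` under an automorphism `f` is in the normal
closure `Γ_X` of the images of `w` under the automorphisms with class in `X` only if the class of `f` is
in `X`.  So every subgroup `H` of `Out(F)` is the stabiliser of the normal subgroup `Γ_H`.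
-/

set_option autoImplicit false

open Pointwise

namespace Pool.Agent.Results.MP_181555_al.StabilisersOfNormalSubgroups

section

variable (G : Type) [Group G]

/-- The subgroup of inner automorphisms of `G`. -/
def Inn : Subgroup (MulAut G) := (MulAut.conj : G →* MulAut G).range

theorem conj_map (f : MulAut G) (y : G) : f * MulAut.conj y * f⁻¹ = MulAut.conj (f y) := by
  ext z
  simp [MulAut.mul_apply, MulAut.conj_apply]

instance normal_Inn : (Inn G).Normal := by
  refine ⟨?_⟩
  rintro _ ⟨y, rfl⟩ f
  exact ⟨f y, (conj_map G f y).symm⟩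

/-- The outer automorphism group `Aut(G)/Inn(G)`. -/
abbrev Out : Type := MulAut G ⧸ Inn G

end

variable {G : Type} [Group G]

/-- The automorphism `f` acts on `G/Γ` as an inner automorphism. -/
def InnerMod (Γ : Subgroup G) (f : MulAut G) : Prop :=
  ∃ g : G, ∀ x : G, f x * (g * x * g⁻¹)⁻¹ ∈ Γ

/-- The stabiliser of `Γ` in `Out(G)`: the classes of the automorphisms `f` with `f(Γ) = Γ`. -/
def Stab (Γ : Subgroup G) : Subgroup (Out G) :=
  (MulAction.stabilizer (MulAut G) Γ).map (QuotientGroup.mk' (Inn G))

/-- The normal closure of the elements `f(w)` for all automorphisms `f` with class in `X`. -/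
def NC (w : G) (X : Set (Out G)) : Subgroup G :=
  Subgroup.normalClosure {z | ∃ f : MulAut G, (f : Out G) ∈ X ∧ z = f w}

variable (G) in
/-- The congruence subgroup property: every normal subgroup of finite index of `Out(G)` contains the
kernel of `Out(G) → Out(G/K)` for some characteristic subgroup `K` of finite index of `G`. -/
def CSP : Prop := ∀ N : Subgroup (Out G), N.Normal → N.FiniteIndex →
  ∃ K : Subgroup G, K.Characteristic ∧ K.FiniteIndex ∧
    ∀ f : MulAut G, InnerMod K f → (f : Out G) ∈ N

theorem smul_mem_iff (f : MulAut G) (Γ : Subgroup G) : f • Γ = Γ ↔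
    (∀ z ∈ Γ, f z ∈ Γ) ∧ ∀ z ∈ Γ, f⁻¹ z ∈ Γ := by
  constructor
  · intro h
    constructor
    · intro z hz
      have h1 : f • z ∈ f • Γ := Subgroup.smul_mem_pointwise_smul z f Γ hz
      rw [h] at h1
      exact h1
    · intro z hz
      rw [← h] at hz
      exact Subgroup.mem_pointwise_smul_iff_inv_smul_mem.mp hz
  · rintro ⟨h1, h2⟩
    ext z
    rw [Subgroup.mem_pointwise_smul_iff_inv_smul_mem]
    constructor
    · intro hz
      have h3 := h1 _ hz
      change f (f⁻¹ z) ∈ Γ at h3
      rwa [MulAut.apply_inv_self] at h3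
    · intro hz
      exact h2 z hz

theorem conj_smul (Γ : Subgroup G) (hΓ : Γ.Normal) (y : G) : (MulAut.conj y : MulAut G) • Γ = Γ := by
  rw [smul_mem_iff]
  constructor
  · intro z hz
    exact hΓ.conj_mem z hz y
  · intro z hz
    rw [← map_inv]
    exact hΓ.conj_mem z hz y⁻¹

theorem mem_Stab (Γ : Subgroup G) (hΓ : Γ.Normal) (f : MulAut G) :
    (f : Out G) ∈ Stab Γ ↔ f • Γ = Γ := by
  constructor
  · rintro ⟨f', hf', h⟩
    have h1 : ((f' : MulAut G) : Out G) = (f : Out G) := h
    rw [QuotientGroup.eq] at h1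
    obtain ⟨y, hy⟩ := h1
    have e : f = f' * MulAut.conj y := by rw [hy]; group
    have h2 : f' • Γ = Γ := hf'
    rw [e, mul_smul, conj_smul Γ hΓ, h2]
  · intro h
    exact ⟨f, h, rfl⟩

theorem coe_conj_mul (y : G) (f : MulAut G) : ((MulAut.conj y * f : MulAut G) : Out G) = (f : Out G) := by
  have h : ((MulAut.conj y : MulAut G) : Out G) = 1 := (QuotientGroup.eq_one_iff _).mpr ⟨y, rfl⟩
  rw [QuotientGroup.mk_mul, h, one_mul]

/-- **Independent orbits and stabilisers.**  Let `F` be the free group of rank `r ≥ 2`.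

(1) There is `w` in `F` such that for all subsets `X` of `Out(F)`: the normal closure `NC w X` of the
images of `w` under the automorphisms with class in `X` contains `f(w)` if and only if the class of `f`
is in `X`; no automorphism acts on `F/NC w X` as an inner automorphism except the inner
automorphisms of `F`; the map `NC w` is an equivariant order embedding of the set of all subsets of
`Out(F)` into the set of normal subgroups of `F`; and every subgroup `H` of `Out(F)` is the
stabiliser of the normal subgroup `NC w H` of `F`.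

(2) The congruence subgroup property holds for `F` if and only if for all normal subgroups `Γ`
of `F` with finitely many images under automorphisms (the stabiliser of `Γ` has finite index), the
stabiliser of `Γ` in `Out(F)` contains the kernel of `Out(F) → Out(F/K)` for some characteristic
subgroup `K` of finite index. -/
theorem result (r : ℕ) (hr : 2 ≤ r) :
    (∃ w : FreeGroup (Fin r),
      (∀ (X : Set (Out (FreeGroup (Fin r)))) (f : MulAut (FreeGroup (Fin r))),
        f w ∈ NC w X ↔ (f : Out (FreeGroup (Fin r))) ∈ X) ∧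
      (∀ (X : Set (Out (FreeGroup (Fin r)))) (f : MulAut (FreeGroup (Fin r))),
        InnerMod (NC w X) f ↔ f ∈ Inn (FreeGroup (Fin r))) ∧
      (∀ X Y : Set (Out (FreeGroup (Fin r))), NC w X ≤ NC w Y ↔ X ⊆ Y) ∧
      (∀ (f : MulAut (FreeGroup (Fin r))) (X : Set (Out (FreeGroup (Fin r)))),
        f • NC w X = NC w {q | (f : Out (FreeGroup (Fin r)))⁻¹ * q ∈ X}) ∧
      ∀ H : Subgroup (Out (FreeGroup (Fin r))), Stab (NC w H) = H) ∧
    (CSP (FreeGroup (Fin r)) ↔ ∀ Γ : Subgroup (FreeGroup (Fin r)), Γ.Normal →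
      (Stab Γ).FiniteIndex → ∃ K : Subgroup (FreeGroup (Fin r)), K.Characteristic ∧
        K.FiniteIndex ∧ ∀ f : MulAut (FreeGroup (Fin r)), InnerMod K f →
          (f : Out (FreeGroup (Fin r))) ∈ Stab Γ) := by
  obtain ⟨w, h1, -⟩ := Run7.h41.IND.main_ind (Run7.h41.IND.ind_free r hr)
  have hNC : ∀ X : Set (Out (FreeGroup (Fin r))), NC w X =
      Run7.h41.IND.NX w {f | (f : Out (FreeGroup (Fin r))) ∈ X} := by
    intro X
    unfold NC Run7.h41.IND.NX
    congr 1
  have hX : ∀ X : Set (Out (FreeGroup (Fin r))),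
      ∀ f ∈ {f : MulAut (FreeGroup (Fin r)) | (f : Out (FreeGroup (Fin r))) ∈ X},
      ∀ y, MulAut.conj y * f ∈
        {f : MulAut (FreeGroup (Fin r)) | (f : Out (FreeGroup (Fin r))) ∈ X} := by
    intro X f hf y
    change ((MulAut.conj y * f : MulAut _) : Out (FreeGroup (Fin r))) ∈ X
    rw [coe_conj_mul]
    exact hf
  have a1 : ∀ (X : Set (Out (FreeGroup (Fin r)))) (f : MulAut (FreeGroup (Fin r))),
      f w ∈ NC w X ↔ (f : Out (FreeGroup (Fin r))) ∈ X := by
    intro X f
    constructor
    · intro h
      rw [hNC] at h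
      exact (h1 _ (hX X)).1 f h
    · intro h
      exact Subgroup.subset_normalClosure ⟨f, h, rfl⟩
  have a2 : ∀ (X : Set (Out (FreeGroup (Fin r)))) (f : MulAut (FreeGroup (Fin r))),
      InnerMod (NC w X) f ↔ f ∈ Inn (FreeGroup (Fin r)) := by
    intro X f
    constructor
    · intro h
      rw [hNC] at h
      exact (h1 _ (hX X)).2 f h
    · rintro ⟨y, rfl⟩
      refine ⟨y, fun x => ?_⟩
      rw [MulAut.conj_apply, mul_inv_cancel]
      exact Subgroup.one_mem _
  have a3 : ∀ X Y : Set (Out (FreeGroup (Fin r))), NC w X ≤ NC w Y ↔ X ⊆ Y := by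
    intro X Y
    constructor
    · intro h q hq
      induction q using QuotientGroup.induction_on with
      | H f => exact (a1 Y f).mp (h ((a1 X f).mpr hq))
    · intro h
      apply Subgroup.normalClosure_mono
      rintro z ⟨f, hf, rfl⟩
      exact ⟨f, h hf, rfl⟩
  have a4' : ∀ (f : MulAut (FreeGroup (Fin r))) (X : Set (Out (FreeGroup (Fin r)))),
      f • NC w X ≤ NC w {q | (f : Out (FreeGroup (Fin r)))⁻¹ * q ∈ X} := by
    intro f X z hz
    rw [Subgroup.mem_pointwise_smul_iff_inv_smul_mem] at hz
    have hn : (NC w {q | (f : Out (FreeGroup (Fin r)))⁻¹ * q ∈ X}).Normal :=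
      Subgroup.normalClosure_normal
    have hn' : ((NC w {q | (f : Out (FreeGroup (Fin r)))⁻¹ * q ∈ X}).comap
        (f : FreeGroup (Fin r) ≃* FreeGroup (Fin r)).toMonoidHom).Normal := hn.comap _
    have hle : NC w X ≤ (NC w {q | (f : Out (FreeGroup (Fin r)))⁻¹ * q ∈ X}).comap
        (f : FreeGroup (Fin r) ≃* FreeGroup (Fin r)).toMonoidHom := by
      apply Subgroup.normalClosure_le_normal
      rintro z ⟨g, hg, rfl⟩
      refine Subgroup.subset_normalClosure ⟨f * g, ?_, rfl⟩
      change (f : Out (FreeGroup (Fin r)))⁻¹ * ((f * g : MulAut _) : Out (FreeGroup (Fin r))) ∈ X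
      rw [QuotientGroup.mk_mul, inv_mul_cancel_left]
      exact hg
    have h3 : f (f⁻¹ • z) ∈ NC w {q | (f : Out (FreeGroup (Fin r)))⁻¹ * q ∈ X} := hle hz
    change f (f⁻¹ z) ∈ _ at h3
    rwa [MulAut.apply_inv_self] at h3
  have a4 : ∀ (f : MulAut (FreeGroup (Fin r))) (X : Set (Out (FreeGroup (Fin r)))),
      f • NC w X = NC w {q | (f : Out (FreeGroup (Fin r)))⁻¹ * q ∈ X} := by
    intro f X
    apply le_antisymm (a4' f X)
    have h3 := a4' f⁻¹ {q | (f : Out (FreeGroup (Fin r)))⁻¹ * q ∈ X}
    have e : {q : Out (FreeGroup (Fin r)) | ((f⁻¹ : MulAut _) : Out (FreeGroup (Fin r)))⁻¹ * q ∈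
        {q | (f : Out (FreeGroup (Fin r)))⁻¹ * q ∈ X}} = X := by
      ext q
      change (f : Out (FreeGroup (Fin r)))⁻¹ *
        (((f⁻¹ : MulAut _) : Out (FreeGroup (Fin r)))⁻¹ * q) ∈ X ↔ q ∈ X
      rw [QuotientGroup.mk_inv, inv_inv, inv_mul_cancel_left]
    rw [e] at h3
    rwa [Subgroup.pointwise_smul_subset_iff, inv_inv] at h3
  have a5 : ∀ H : Subgroup (Out (FreeGroup (Fin r))), Stab (NC w H) = H := by
    intro H
    ext q
    induction q using QuotientGroup.induction_on with
    | H f =>
      rw [mem_Stab (NC w (H : Set (Out (FreeGroup (Fin r))))) Subgroup.normalClosure_normal, a4]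
      constructor
      · intro h
        have h3 : f w ∈ NC w (H : Set (Out (FreeGroup (Fin r)))) := by
          rw [← h, a1]
          change (f : Out (FreeGroup (Fin r)))⁻¹ * (f : Out (FreeGroup (Fin r))) ∈ H
          rw [inv_mul_cancel]
          exact H.one_mem
        exact (a1 _ f).mp h3
      · intro h
        congr 1
        ext q
        exact Subgroup.mul_mem_cancel_left H (H.inv_mem h)
  refine ⟨⟨w, a1, a2, a3, a4, a5⟩, ?_, ?_⟩
  · intro h Γ hΓ hf
    obtain ⟨K, hK1, hK2, hK3⟩ := h (Stab Γ).normalCore inferInstance inferInstance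
    exact ⟨K, hK1, hK2, fun f hf => Subgroup.normalCore_le _ (hK3 f hf)⟩
  · intro h N hN hf
    have h3 := h (NC w N) Subgroup.normalClosure_normal (by rw [a5]; exact hf)
    rw [a5] at h3
    exact h3

end Pool.Agent.Results.MP_181555_al.StabilisersOfNormalSubgroups
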